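import Pool.Agent.Y400.Dom.Walk

/-!
# A power of `log n` as an upper bound for `Γ_1(H(n,r))`

For every `r ≥ 4` the upper directed 1-domination number of the complete `r`-uniform hypergraph on
`n` vertices is at most `(log₂ (n + 1)) ^ (1 / ⌊r / 2⌋) + r + 1`, and for odd `r = 2 j + 1` it is
`O((log n / log log n) ^ (1 / j))`.

Proof.  Fix an orientation without dominating set of size `κ` and write `u → v` if `v` is not the
first vertex of an edge containing `u`.  Any `κ` vertices have a common in-neighbour.  On the set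
of vertices with out-degree at least `r` any `κ - r` vertices have a common in-neighbour and there
are no closed walks of length at most `r`: their vertices and some further out-neighbours would form
an `r`-set in which every vertex has an in-neighbour, contrary to the choice of the first vertex.
Any `(κ - r) ^ j` vertices are reached by walks of length `j` from one vertex.  Since there is no
closed walk of length `2 j`, the digraph of all pairs joined by a walk of length `j` has no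
2-cycles, so it has more than `2 ^ ((κ - r) ^ j)` vertices.  For `r = 2 j + 1` one compares walks of
length `j` with walks of length `j + 1`.
-/

set_option autoImplicit false

namespace Pool.Agent.Results.MP_869403_co.FirstVertexPowerUpper

open Finset Pool.Agent.Y400.Dom Pool.Agent.Results.MP_869403_co.LogOrder

/-- `u → v`: the vertex `v ≠ u` is not the first vertex of an edge containing `u`. -/
def Arc {n r : ℕ} (hr : 0 < r) (D : Orientation n r) (u v : Fin n) : Prop :=
  u ≠ v ∧ ∀ E : {E : Finset (Fin n) // E.card = r}, u ∈ E.1 → (D E ⟨0, hr⟩).1 ≠ v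

lemma arc_of_not_dom {n r k : ℕ} (hr : 0 < r) (D : Orientation n r) (hk : k < gamma 1 D)
    (S : Finset (Fin n)) (hS : S.card ≤ k) : ∃ u, ∀ v ∈ S, Arc hr D u v := by
  classical
  by_contra hcon
  push Not at hcon
  have h1 : IsDominating 1 D S := by
    intro u hu
    obtain ⟨v, hv, h2⟩ := hcon u
    unfold Arc at h2
    push Not at h2
    obtain ⟨E, hE, h3⟩ := h2 (fun h => hu (h ▸ hv))
    refine ⟨E, hE, fun i hi => ?_⟩
    have : i = ⟨0, hr⟩ := Fin.ext (by show i.val = 0; omega)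
    rw [this, h3]
    exact hv
  have := gamma_le h1
  omega

/-- No closed walks of length at most `r` through vertices of out-degree at least `r`. -/
lemma no_closed {n r m : ℕ} (hr : 0 < r) (D : Orientation n r) (hm1 : 1 ≤ m) (hm2 : m ≤ r)
    (Good : Fin n → Prop)
    (hGood : ∀ v, Good v → ∃ O : Finset (Fin n), r ≤ O.card ∧ ∀ w ∈ O, Arc hr D v w)
    (x : {v // Good v}) (hx : Iter (fun a b : {v // Good v} => Arc hr D a.1 b.1) m x x) :
    False := by
  classical
  obtain ⟨T, hTc, hxT, hT⟩ := walk_set hx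
  have hxT := hxT hm1
  have hT' : ∀ v ∈ T, ∃ u ∈ T, Arc hr D u.1 v.1 := by
    intro v hv
    obtain ⟨u, hu, h⟩ := hT v hv
    rcases hu with rfl | hu
    · exact ⟨u, hxT, h⟩
    · exact ⟨u, hu, h⟩
  obtain ⟨O, hO, hOx⟩ := hGood x.1 x.2
  let T0 : Finset (Fin n) := T.image Subtype.val
  have hT0 : T0.card ≤ r := Finset.card_image_le.trans (hTc.trans hm2)
  obtain ⟨E, hE1, hE2, hE3⟩ := Finset.exists_subsuperset_card_eq
    (Finset.subset_union_left : T0 ⊆ T0 ∪ O) hT0
    (hO.trans (Finset.card_le_card Finset.subset_union_right))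
  -- the first vertex of `E` has an in-neighbour in `E`
  have hf : ∃ u ∈ E, Arc hr D u (D ⟨E, hE3⟩ ⟨0, hr⟩).1 := by
    have hfE : (D ⟨E, hE3⟩ ⟨0, hr⟩).1 ∈ E := (D ⟨E, hE3⟩ ⟨0, hr⟩).2
    rcases Finset.mem_union.1 (hE2 hfE) with h | h
    · obtain ⟨v, hv, hv2⟩ := Finset.mem_image.1 h
      obtain ⟨u, hu, hu2⟩ := hT' v hv
      refine ⟨u.1, hE1 (Finset.mem_image_of_mem _ hu), ?_⟩
      rw [← hv2]
      exact hu2
    · exact ⟨x.1, hE1 (Finset.mem_image_of_mem _ hxT), hOx _ h⟩
  obtain ⟨u, hu, h⟩ := hf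
  exact h.2 ⟨E, hE3⟩ hu rfl

/-- The digraph extracted from an orientation with large domination number. -/
lemma extract {n r k : ℕ} (hr : 0 < r) (hn : r ≤ n) (D : Orientation n r)
    (hk : k + r < gamma 1 D) :
    ∃ (V : Type) (_ : Fintype V) (_ : Nonempty V) (R : V → V → Prop),
      Fintype.card V ≤ n ∧ Univ R k ∧ ∀ m, 1 ≤ m → m ≤ r → ∀ x, ¬ Iter R m x x := by
  classical
  let Good : Fin n → Prop := fun v =>
    ∃ O : Finset (Fin n), r ≤ O.card ∧ ∀ w ∈ O, Arc hr D v w
  obtain ⟨T0, _, hT0⟩ := Finset.exists_subset_card_eq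
    (s := (Finset.univ : Finset (Fin n))) (n := r) (by rwa [Finset.card_univ, Fintype.card_fin])
  have key : ∀ S : Finset (Fin n), S.card ≤ k → ∃ u, Good u ∧ ∀ v ∈ S, Arc hr D u v := by
    intro S hS
    obtain ⟨u, hu⟩ := arc_of_not_dom hr D hk (S ∪ T0)
      ((Finset.card_union_le _ _).trans (by omega))
    exact ⟨u, ⟨T0, by omega, fun w hw => hu w (Finset.mem_union_right _ hw)⟩,
      fun v hv => hu v (Finset.mem_union_left _ hv)⟩
  refine ⟨{v // Good v}, inferInstance, ?_, fun a b => Arc hr D a.1 b.1, ?_, ?_, ?_⟩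
  · obtain ⟨u, hu, _⟩ := key ∅ (by simp)
    exact ⟨⟨u, hu⟩⟩
  · have := Fintype.card_subtype_le Good
    rwa [Fintype.card_fin] at this
  · intro s
    obtain ⟨u, hu, h⟩ := key ((Finset.univ : Finset (Fin k)).image (fun j => (s j).1))
      (Finset.card_image_le.trans (by simp))
    exact ⟨⟨u, hu⟩, fun j => h _ (Finset.mem_image_of_mem _ (Finset.mem_univ j))⟩
  · intro m hm1 hm2 x hx
    exact no_closed hr D hm1 hm2 Good (fun v hv => hv) x hx

/-- If `Γ_1(H(n,r)) > k + r` and `2 j ≤ r` then `k ^ j ≤ log₂ (n + 1)`. -/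
lemma even_bound {n r k j : ℕ} (hj : 1 ≤ j) (hjr : 2 * j ≤ r) (hn : r ≤ n)
    (D : Orientation n r) (hk : k + r < gamma 1 D) : 2 ^ (k ^ j) ≤ n + 1 := by
  obtain ⟨V, i1, i2, R, hc, hU, hR⟩ := extract (by omega) hn D hk
  have h1 := asymm_card (M := Iter R j) (hU.iter j) (fun x hx => hR j hj (by omega) x hx)
    (fun x y hx hy => hR (j + j) (by omega) (by omega) x (hx.add hy))
  have h2 : 2 ^ (k ^ j) ≤ 2 ^ (k ^ j + 1) := Nat.pow_le_pow_right (by norm_num) (by omega)
  omega

/-- If `Γ_1(H(n,r)) > k + r` and `2 j + 1 ≤ r` then `n` is large. -/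
lemma odd_bound {n r k j t : ℕ} (ht : 2 ≤ t) (hjr : 2 * j + 1 ≤ r) (hn : r ≤ n)
    (D : Orientation n r) (hk : k + r < gamma 1 D) :
    t ^ k ^ j ≤ n ∨ t ^ k ^ (j + 1) ≤ n * (t - 1) ^ k ^ (j + 1) := by
  obtain ⟨V, i1, i2, R, hc, hU, hR⟩ := extract (by omega) hn D hk
  rcases pair_card (M := Iter R j) (N := Iter R (j + 1)) ht
    (fun x y hx hy => hR (j + (j + 1)) (by omega) (by omega) x (hx.add hy)) (hU.iter j)
    (hU.iter (j + 1)) with h | h
  · exact Or.inl (h.trans hc)
  · exact Or.inr (h.trans (Nat.mul_le_mul_right _ hc))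

/-- `k ^ j log k ≤ 4 log n`. -/
lemma odd_log {n r k j : ℕ} (hjr : 2 * j + 1 ≤ r) (hn : r ≤ n)
    (D : Orientation n r) (hk : k + r < gamma 1 D) (hk2 : 4 ≤ k) :
    (k : ℝ) ^ j * Real.log k ≤ 4 * Real.log n := by
  -- `t` is about the square root of `k`
  set t := Nat.sqrt k with ht
  have ht2 : 2 ≤ t := by
    rw [ht, Nat.le_sqrt]
    omega
  have htk : t * t ≤ k := Nat.sqrt_le k
  have hkt : k < (t + 1) * (t + 1) := Nat.lt_succ_sqrt k
  have hk0 : (0 : ℝ) < k := by exact_mod_cast (by omega : 0 < k)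
  have ht0 : (0 : ℝ) < t := by exact_mod_cast (by omega : 0 < t)
  have ht1 : (0 : ℝ) < (t : ℝ) - 1 := by
    have : (2 : ℝ) ≤ t := by exact_mod_cast ht2
    linarith
  have hn0 : (0 : ℝ) < n := by exact_mod_cast (by omega : 0 < n)
  -- `log k ≤ 4 log t`
  have hlog : Real.log k ≤ 4 * Real.log t := by
    have h1 : (k : ℝ) ≤ (t : ℝ) ^ 4 := by
      have h2 : k ≤ t ^ 4 := by
        have h3 : t + 1 ≤ t * t := by nlinarith
        calc k ≤ (t + 1) * (t + 1) := hkt.le
          _ ≤ (t * t) * (t * t) := Nat.mul_le_mul h3 h3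
          _ = t ^ 4 := by ring
      exact_mod_cast h2
    calc Real.log k ≤ Real.log ((t : ℝ) ^ 4) := Real.log_le_log hk0 h1
      _ = 4 * Real.log t := by rw [Real.log_pow]; norm_num
  have hlt : 0 ≤ Real.log t := Real.log_nonneg (by exact_mod_cast (by omega : 1 ≤ t))
  have hkj : (0 : ℝ) ≤ (k : ℝ) ^ j := by positivity
  have goal : (k : ℝ) ^ j * Real.log t ≤ Real.log n := by
    rcases odd_bound (j := j) ht2 hjr hn D hk with h | h
    · have h1 : ((t : ℝ) ^ (k ^ j)) ≤ n := by exact_mod_cast h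
      have h2 := Real.log_le_log (by positivity) h1
      rw [Real.log_pow] at h2
      push_cast at h2
      exact h2
    · have h1 : ((t : ℝ) ^ (k ^ (j + 1))) ≤ n * ((t : ℝ) - 1) ^ (k ^ (j + 1)) := by
        have h2 : ((t ^ k ^ (j + 1) : ℕ) : ℝ) ≤ ((n * (t - 1) ^ k ^ (j + 1) : ℕ) : ℝ) := by
          exact_mod_cast h
        push_cast [(by omega : 1 ≤ t)] at h2
        exact h2
      have h3 := Real.log_le_log (by positivity) h1
      rw [Real.log_mul hn0.ne' (by positivity), Real.log_pow, Real.log_pow] at h3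
      push_cast at h3
      -- `log t - log (t - 1) ≥ 1 / t`
      have h4 : 1 / (t : ℝ) ≤ Real.log t - Real.log ((t : ℝ) - 1) := by
        rw [← Real.log_div ht0.ne' ht1.ne']
        have h5 : Real.log (((t : ℝ) - 1) / t) ≤ ((t : ℝ) - 1) / t - 1 :=
          Real.log_le_sub_one_of_pos (by positivity)
        have h6 : Real.log ((t : ℝ) / (t - 1)) = - Real.log (((t : ℝ) - 1) / t) := by
          rw [← Real.log_inv, inv_div]
        rw [h6]
        have h7 : ((t : ℝ) - 1) / t - 1 = - (1 / t) := by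
          field_simp
          ring
        linarith
      have h8 : (k : ℝ) ^ (j + 1) * (1 / t) ≤ Real.log n := by
        have h9 : (k : ℝ) ^ (j + 1) * (1 / t) ≤
            (k : ℝ) ^ (j + 1) * (Real.log t - Real.log ((t : ℝ) - 1)) :=
          mul_le_mul_of_nonneg_left h4 (by positivity)
        linarith
      have h10 : Real.log t ≤ t := (Real.log_le_sub_one_of_pos ht0).trans (by linarith)
      have h11 : (t : ℝ) ≤ k * (1 / t) := by
        rw [mul_one_div, le_div_iff₀ ht0]
        exact_mod_cast htk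
      calc (k : ℝ) ^ j * Real.log t ≤ (k : ℝ) ^ j * (k * (1 / t)) :=
            mul_le_mul_of_nonneg_left (h10.trans h11) hkj
        _ = (k : ℝ) ^ (j + 1) * (1 / t) := by rw [pow_succ]; ring
        _ ≤ Real.log n := h8
  calc (k : ℝ) ^ j * Real.log k ≤ (k : ℝ) ^ j * (4 * Real.log t) :=
        mul_le_mul_of_nonneg_left hlog hkj
    _ = 4 * ((k : ℝ) ^ j * Real.log t) := by ring
    _ ≤ 4 * Real.log n := by linarith

/-- The even case. -/
lemma upper_even {r j : ℕ} (hj : 1 ≤ j) (hjr : 2 * j ≤ r) (n : ℕ) (hn : r ≤ n) :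
    (Gamma 1 n r : ℝ) ≤ (Real.logb 2 (n + 1)) ^ ((1 : ℝ) / j) + r + 1 := by
  have hn0 : (0 : ℝ) < (n : ℝ) + 1 := by positivity
  have hlog : 0 ≤ Real.logb 2 ((n : ℝ) + 1) :=
    Real.logb_nonneg (by norm_num) (by have : (0 : ℝ) ≤ n := Nat.cast_nonneg n; linarith)
  have hx : 0 ≤ (Real.logb 2 ((n : ℝ) + 1)) ^ ((1 : ℝ) / j) := Real.rpow_nonneg hlog _
  have hD : ∀ D : Orientation n r,
      gamma 1 D ≤ ⌊(Real.logb 2 ((n : ℝ) + 1)) ^ ((1 : ℝ) / j) + r + 1⌋₊ := by
    intro D
    apply Nat.le_floor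
    by_cases hk : r < gamma 1 D
    · obtain ⟨k, hk⟩ : ∃ k, gamma 1 D = k + r + 1 := ⟨gamma 1 D - r - 1, by omega⟩
      have h1 := even_bound hj hjr hn D (k := k) (by omega)
      have h2 : ((k : ℝ) ^ j) ≤ Real.logb 2 ((n : ℝ) + 1) := by
        have h3 : ((k ^ j : ℕ) : ℝ) ≤ Real.logb 2 ((n : ℝ) + 1) := by
          rw [Real.le_logb_iff_rpow_le (by norm_num) hn0, Real.rpow_natCast]
          exact_mod_cast h1
        push_cast at h3
        exact h3
      have h4 : (k : ℝ) ≤ (Real.logb 2 ((n : ℝ) + 1)) ^ ((1 : ℝ) / j) := by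
        have h5 : (k : ℝ) = ((k : ℝ) ^ j) ^ ((1 : ℝ) / j) := by
          rw [← Real.rpow_natCast, ← Real.rpow_mul (Nat.cast_nonneg k), mul_one_div_cancel,
            Real.rpow_one]
          exact_mod_cast (by omega : j ≠ 0)
        rw [h5]
        exact Real.rpow_le_rpow (by positivity) h2 (by positivity)
      rw [hk]
      push_cast
      linarith
    · have h1 : (gamma 1 D : ℝ) ≤ r := by exact_mod_cast (by omega : gamma 1 D ≤ r)
      linarith
  have h1 : (Gamma 1 n r : ℝ) ≤ ((⌊(Real.logb 2 ((n : ℝ) + 1)) ^ ((1 : ℝ) / j) + r + 1⌋₊ : ℕ) : ℝ) :=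
    by exact_mod_cast Gamma_le hD
  exact h1.trans (Nat.floor_le (by positivity))

/-- From `k ^ j log k ≤ 4 L` to `k ≤ (8 j L / log L) ^ (1 / j)`. -/
lemma invert {j : ℕ} (hj : 1 ≤ j) {L k : ℝ} (hL : 1 < L) (hL2 : Real.log L ≤ Real.sqrt L)
    (hk : 1 ≤ k) (h : k ^ j * Real.log k ≤ 4 * L) :
    k ≤ (8 * j * (L / Real.log L)) ^ ((1 : ℝ) / j) := by
  have hj0 : (0 : ℝ) < j := by exact_mod_cast (by omega : 0 < j)
  have hj1 : (1 : ℝ) ≤ j := by exact_mod_cast hj
  have hL0 : 0 < L := by linarith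
  have hlL : 0 < Real.log L := Real.log_pos hL
  have hk0 : 0 < k := by linarith
  have hk' : k = (k ^ j) ^ ((1 : ℝ) / j) := by
    rw [← Real.rpow_natCast, ← Real.rpow_mul hk0.le, mul_one_div_cancel hj0.ne', Real.rpow_one]
  have hmain : k ^ j ≤ 8 * j * (L / Real.log L) := by
    by_cases h1 : k ^ j ≤ L / Real.log L
    · have : 0 < L / Real.log L := by positivity
      nlinarith
    · push Not at h1
      have hs : Real.sqrt L ≤ L / Real.log L := by
        rw [le_div_iff₀ hlL]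
        calc Real.sqrt L * Real.log L ≤ Real.sqrt L * Real.sqrt L :=
              mul_le_mul_of_nonneg_left hL2 (Real.sqrt_nonneg L)
          _ = L := Real.mul_self_sqrt hL0.le
      have h2 : Real.sqrt L ≤ k ^ j := hs.trans h1.le
      have h3 : Real.log (Real.sqrt L) ≤ Real.log (k ^ j) :=
        Real.log_le_log (Real.sqrt_pos.2 hL0) h2
      rw [Real.log_sqrt hL0.le, Real.log_pow] at h3
      -- `log k ≥ log L / (2 j)`
      have h4 : k ^ j * (Real.log L / 2) ≤ 4 * j * L := by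
        calc k ^ j * (Real.log L / 2) ≤ k ^ j * (j * Real.log k) :=
              mul_le_mul_of_nonneg_left h3 (by positivity)
          _ = j * (k ^ j * Real.log k) := by ring
          _ ≤ j * (4 * L) := mul_le_mul_of_nonneg_left h hj0.le
          _ = 4 * j * L := by ring
      rw [← mul_div_assoc, le_div_iff₀ hlL]
      linarith
  calc k = (k ^ j) ^ ((1 : ℝ) / j) := hk'
    _ ≤ _ := Real.rpow_le_rpow (by positivity) hmain (by positivity)

/-- **Upper bounds for `Γ_1(H(n,r))`.** -/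
theorem result (r j : ℕ) (hj : 1 ≤ j) :
    (2 * j ≤ r → ∀ n : ℕ, r ≤ n →
      (Gamma 1 n r : ℝ) ≤ (Real.logb 2 (n + 1)) ^ ((1 : ℝ) / j) + r + 1) ∧
    (2 * j + 1 ≤ r →
      (fun n : ℕ => (Gamma 1 n r : ℝ)) =O[Filter.atTop]
        (fun n : ℕ => (Real.log n / Real.log (Real.log n)) ^ ((1 : ℝ) / j))) := by
  refine ⟨fun hjr n hn => upper_even hj hjr n hn, fun hjr => ?_⟩
  have hj0 : (0 : ℝ) < j := by exact_mod_cast (by omega : 0 < j)
  have hlogt : Filter.Tendsto (fun n : ℕ => Real.log n) Filter.atTop Filter.atTop :=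
    Real.tendsto_log_atTop.comp tendsto_natCast_atTop_atTop
  -- `L / log L → ∞`
  have hquot : ∀ᶠ L : ℝ in Filter.atTop, Real.log L ≤ Real.sqrt L ∧ 1 < L ∧
      1 ≤ L / Real.log L := by
    have h4 := (isLittleO_log_rpow_atTop (show (0 : ℝ) < 1 / 2 by norm_num)).bound
      (show (0 : ℝ) < 1 by norm_num)
    filter_upwards [h4, Filter.eventually_gt_atTop 1] with x h5 h6
    have hlx : 0 < Real.log x := Real.log_pos h6
    rw [Real.norm_of_nonneg hlx.le, Real.norm_of_nonneg (Real.rpow_nonneg (by linarith) _),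
      one_mul, ← Real.sqrt_eq_rpow] at h5
    refine ⟨h5, h6, ?_⟩
    rw [one_le_div hlx]
    exact (Real.log_le_sub_one_of_pos (by linarith)).trans (by linarith)
  apply Asymptotics.IsBigO.of_bound ((8 * j) ^ ((1 : ℝ) / j) + r + 4)
  filter_upwards [Filter.eventually_ge_atTop r, hlogt.eventually hquot] with n hn hq
  obtain ⟨hq1, hq2, hq3⟩ := hq
  set L := Real.log n with hL
  set X := (L / Real.log L) ^ ((1 : ℝ) / j) with hX
  have hX1 : 1 ≤ X := Real.one_le_rpow hq3 (by positivity)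
  have h8 : 0 ≤ ((8 * j : ℝ)) ^ ((1 : ℝ) / j) := Real.rpow_nonneg (by positivity) _
  have hr0 : (0 : ℝ) ≤ r := Nat.cast_nonneg r
  rw [Real.norm_of_nonneg (Nat.cast_nonneg _), Real.norm_of_nonneg (by linarith)]
  have hD : ∀ D : Orientation n r,
      gamma 1 D ≤ ⌊(((8 * j : ℝ)) ^ ((1 : ℝ) / j) + r + 4) * X⌋₊ := by
    intro D
    apply Nat.le_floor
    by_cases hk : r + 4 < gamma 1 D
    · obtain ⟨k, hk⟩ : ∃ k, gamma 1 D = k + r + 1 := ⟨gamma 1 D - r - 1, by omega⟩
      have hk4 : 4 ≤ k := by omega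
      have h1 := odd_log (j := j) hjr hn D (k := k) (by omega) hk4
      have h2 := invert hj hq2 hq1 (by exact_mod_cast (by omega : 1 ≤ k)) h1
      rw [Real.mul_rpow (by positivity) (by linarith), ← hX] at h2
      rw [hk]
      push_cast
      nlinarith
    · have h1 : (gamma 1 D : ℝ) ≤ (r : ℝ) + 4 := by
        exact_mod_cast (by omega : gamma 1 D ≤ r + 4)
      nlinarith
  have h1 : (Gamma 1 n r : ℝ) ≤
      ((⌊(((8 * j : ℝ)) ^ ((1 : ℝ) / j) + r + 4) * X⌋₊ : ℕ) : ℝ) := by
    exact_mod_cast Gamma_le hD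
  exact h1.trans (Nat.floor_le (by positivity))

end Pool.Agent.Results.MP_869403_co.FirstVertexPowerUpper
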