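import Pool.Agent.Y400.Dom.Build

/-!
# A power of `log n` as a lower bound for `Γ_p(H(n,r))`

For all `1 ≤ p < r` and `n ≥ r` the upper directed `p`-domination number of the complete
`r`-uniform hypergraph on `n` vertices is at least `(log₂ n / (7 g g!)) ^ (1 / (g - 1))`, where
`g ≥ 2` is any integer with one of the following properties:

* `r ≤ g`;
* `2 j ≤ g` and `r + 2 ≤ 2 ^ (p ^ j + 1)` for some `j ≥ 1`;
* `2 j + 1 ≤ g` and `r < t ^ (p ^ j)` for some `j` and some `t ≥ 2` with `t (t - 1) ^ p ≤ t ^ p`.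

Proof.  There is a digraph on at most `2 ^ (7 g g! k ^ (g - 1))` vertices without closed walks of
length at most `g` in which any `k` vertices have a common in-neighbour.  An `r`-subset `E` contains
`p` vertices without a common in-neighbour in `E`: otherwise any `p ^ j` vertices of `E` have a
common starting point of walks of length `j` inside `E`, and since closed walks of length `2 j`
(respectively `2 j + 1`) do not exist this forces more than `r` vertices.  Put these `p` vertices in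
the first `p` places of `E`.
-/

set_option autoImplicit false

namespace Pool.Agent.Results.MP_869403_co.LogPowerLower

open Finset Pool.Agent.Y400.Dom Pool.Agent.Results.MP_869403_co.LogOrder

/-- `Γ_p(H(n,r)) > k` if there is a suitable digraph on the vertices. -/
lemma lt_Gamma_of {n r p k : ℕ} (hpr : p < r) (R : Fin n → Fin n → Prop) (hU : Univ R k)
    (hirr : ∀ x, ¬ R x x)
    (hE : ∀ E : Finset (Fin n), E.card = r → ∃ P ⊆ E, P.card = p ∧ ∀ u ∈ E, ∃ a ∈ P, ¬ R u a)
    (hn : 1 ≤ n) : k < Gamma p n r := by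
  classical
  have : Nonempty (Fin n) := ⟨⟨0, hn⟩⟩
  have hP : ∀ E : {E : Finset (Fin n) // E.card = r}, ∃ P ⊆ E.1, P.card = p ∧
      ∀ u ∈ E.1, ∃ a ∈ P, ¬ R u a := fun E => hE E.1 E.2
  choose P hPE hPc hPd using hP
  have hD : ∀ E : {E : Finset (Fin n) // E.card = r}, ∃ e : Fin r ≃ {v : Fin n // v ∈ E.1},
      ∀ i : Fin r, i.val < p ↔ (e i).1 ∈ P E :=
    fun E => exists_ordering hpr E.1 E.2 (P E) (hPE E) (hPc E)
  choose D hD using hD
  refine lt_of_lt_of_le ?_ (le_Gamma (D : Orientation n r))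
  obtain ⟨S, hS, hSc⟩ := exists_gamma p (D : Orientation n r)
  by_contra hcon
  push Not at hcon
  rw [← hSc] at hcon
  obtain ⟨u, hu⟩ := hU.finset S hcon
  have huS : u ∉ S := fun h => hirr u (hu u h)
  obtain ⟨E, huE, hES⟩ := hS u huS
  obtain ⟨a, ha, hua⟩ := hPd E u huE
  obtain ⟨i, hi⟩ := (D E).surjective ⟨a, hPE E ha⟩
  have h1 : (D E i).1 = a := by rw [hi]
  have h2 : i.val < p := (hD E i).2 (by rw [h1]; exact ha)
  have h3 := hES i h2
  rw [h1] at h3
  exact hua (hu a h3)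

/-- In a finite digraph without closed walks of length at most `g` every small vertex set contains
`p` vertices without a common in-neighbour in the set. -/
lemma exists_top {V : Type} {R : V → V → Prop} {p r g : ℕ} (hp : 1 ≤ p) (hpr : p < r)
    (h : r ≤ g ∨ (∃ j, 1 ≤ j ∧ 2 * j ≤ g ∧ r + 2 ≤ 2 ^ (p ^ j + 1)) ∨
      ∃ j t, 2 * j + 1 ≤ g ∧ 2 ≤ t ∧ t * (t - 1) ^ p ≤ t ^ p ∧ r < t ^ p ^ j)
    (hR : ∀ m, 1 ≤ m → m ≤ g → ∀ x, ¬ Iter R m x x) (E : Finset V) (hE : E.card = r) :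
    ∃ P ⊆ E, P.card = p ∧ ∀ u ∈ E, ∃ a ∈ P, ¬ R u a := by
  classical
  by_contra hcon
  push Not at hcon
  -- the digraph induced on `E`
  let W := {x // x ∈ E}
  let Q : W → W → Prop := fun x y => R x.1 y.1
  have hWc : Fintype.card W = r := by rw [← hE]; exact Fintype.card_coe E
  have : Nonempty W := by
    rw [← Fintype.card_pos_iff, hWc]
    omega
  have hQU : Univ Q p := by
    intro s
    have h1 : ((Finset.univ : Finset (Fin p)).image (fun j => (s j).1)).card ≤ p :=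
      Finset.card_image_le.trans (by simp)
    have h2 : (Finset.univ : Finset (Fin p)).image (fun j => (s j).1) ⊆ E := by
      intro x hx
      obtain ⟨j, _, rfl⟩ := Finset.mem_image.1 hx
      exact (s j).2
    obtain ⟨P, hP1, hP2, hP3⟩ := Finset.exists_subsuperset_card_eq h2 h1 (by omega)
    obtain ⟨u, hu, hua⟩ := hcon P hP2 hP3
    exact ⟨⟨u, hu⟩, fun j => hua _ (hP1 (Finset.mem_image_of_mem _ (Finset.mem_univ j)))⟩
  have hQ : ∀ m, 1 ≤ m → m ≤ g → ∀ x, ¬ Iter Q m x x := fun m h1 h2 x hx =>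
    hR m h1 h2 x.1 (hx.map Subtype.val (fun _ _ h => h))
  rcases h with h | ⟨j, hj1, hj2, h⟩ | ⟨j, t, hj, ht, htp, h⟩
  · obtain ⟨m, hm1, hm2, x, hx⟩ := exists_closed (R := Q) (g := g) (by omega) (fun x => by
      obtain ⟨u, hu⟩ := hQU (fun _ => x)
      exact ⟨u, hu ⟨0, hp⟩⟩)
    exact hQ m hm1 hm2 x hx
  · have h1 := asymm_card (M := Iter Q j) (hQU.iter j) (fun x hx => hQ j hj1 (by omega) x hx)
      (fun x y hx hy => hQ (j + j) (by omega) (by omega) x (hx.add hy))
    rw [hWc] at h1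
    omega
  · have h1 := pair_card (M := Iter Q j) (N := Iter Q (j + 1)) ht
      (fun x y hx hy => hQ (j + (j + 1)) (by omega) (by omega) x (hx.add hy)) (hQU.iter j)
      (hQU.iter (j + 1))
    rw [hWc] at h1
    rcases h1 with h1 | h1
    · omega
    · have h2 : (t * (t - 1) ^ p) ^ p ^ j ≤ (t ^ p) ^ p ^ j := Nat.pow_le_pow_left htp _
      have h3 : (t * (t - 1) ^ p) ^ p ^ j = t ^ p ^ j * (t - 1) ^ p ^ (j + 1) := by
        rw [mul_pow, ← pow_mul, ← pow_succ']
      have h4 : (t ^ p) ^ p ^ j = t ^ p ^ (j + 1) := by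
        rw [← pow_mul, ← pow_succ']
      rw [h3, h4] at h2
      have h5 : 0 < (t - 1) ^ p ^ (j + 1) := by
        apply Nat.pow_pos
        omega
      have h6 : t ^ p ^ j * (t - 1) ^ p ^ (j + 1) ≤ r * (t - 1) ^ p ^ (j + 1) := h2.trans h1
      exact absurd (Nat.le_of_mul_le_mul_right h6 h5) (by omega)

/-- **Lower bound for `Γ_p(H(n,r))`** for all `1 ≤ p < r`. -/
theorem result (p r g : ℕ) (hp : 1 ≤ p) (hpr : p < r) (hg : 2 ≤ g)
    (h : r ≤ g ∨ (∃ j, 1 ≤ j ∧ 2 * j ≤ g ∧ r + 2 ≤ 2 ^ (p ^ j + 1)) ∨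
      ∃ j t, 2 * j + 1 ≤ g ∧ 2 ≤ t ∧ t * (t - 1) ^ p ≤ t ^ p ∧ r < t ^ p ^ j)
    (n : ℕ) (hn : r ≤ n) :
    (Real.logb 2 n / (7 * g * g.factorial)) ^ ((1 : ℝ) / (g - 1)) ≤ (Gamma p n r : ℝ) := by
  set C : ℝ := 7 * g * g.factorial with hC
  have hn1 : 1 ≤ n := by omega
  have hn0 : (0 : ℝ) < n := by exact_mod_cast hn1
  have hlog : 0 ≤ Real.logb 2 n := Real.logb_nonneg (by norm_num) (by exact_mod_cast hn1)
  have hg0 : (0 : ℝ) < g := by exact_mod_cast (by omega : 0 < g)
  have hCpos : 0 < C := by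
    have : (0 : ℝ) < g.factorial := by exact_mod_cast Nat.factorial_pos g
    rw [hC]
    positivity
  set y : ℝ := Real.logb 2 n / C with hy
  have hy0 : 0 ≤ y := div_nonneg hlog hCpos.le
  set x : ℝ := y ^ ((1 : ℝ) / (g - 1)) with hx
  have hx0 : 0 ≤ x := Real.rpow_nonneg hy0 _
  set k := ⌊x⌋₊ with hk
  have hkx : (k : ℝ) ≤ x := Nat.floor_le hx0
  have hxk : x < k + 1 := Nat.lt_floor_add_one x
  have key : k < Gamma p n r := by
    rcases Nat.eq_zero_or_pos k with h0 | hkpos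
    · rw [h0]
      exact one_le_Gamma hpr hp hn1
    · have hg1 : ((g - 1 : ℕ) : ℝ) = (g : ℝ) - 1 := by
        push_cast [(by omega : 1 ≤ g)]
        ring
      have hg2 : (g : ℝ) - 1 ≠ 0 := by
        rw [← hg1]
        exact_mod_cast (by omega : g - 1 ≠ 0)
      have h1 : (k : ℝ) ^ (g - 1) ≤ y := by
        calc (k : ℝ) ^ (g - 1) ≤ x ^ (g - 1) := pow_le_pow_left₀ (Nat.cast_nonneg k) hkx _
          _ = y := by
            rw [hx, ← Real.rpow_natCast, ← Real.rpow_mul hy0, hg1, one_div,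
              inv_mul_cancel₀ hg2, Real.rpow_one]
      have h2 : C * (k : ℝ) ^ (g - 1) ≤ Real.logb 2 n := by
        rw [hy, le_div_iff₀ hCpos] at h1
        linarith
      have h3 : 2 ^ (7 * g * g.factorial * k ^ (g - 1)) ≤ n := by
        have h4 : ((7 * g * g.factorial * k ^ (g - 1) : ℕ) : ℝ) ≤ Real.logb 2 n := by
          push_cast
          exact h2
        rw [Real.le_logb_iff_rpow_le (by norm_num) hn0, Real.rpow_natCast] at h4
        exact_mod_cast h4
      obtain ⟨R, hU, hR⟩ := on_fin k hkpos g hg n h3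
      exact lt_Gamma_of hpr R hU (fun x hx => hR 1 le_rfl (by omega) x ⟨x, hx, rfl⟩)
        (fun E hE => exists_top hp hpr h hR E hE) hn1
  have h5 : ((k + 1 : ℕ) : ℝ) ≤ (Gamma p n r : ℝ) := by exact_mod_cast key
  push_cast at h5
  linarith

end Pool.Agent.Results.MP_869403_co.LogPowerLower
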